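import Pool.Agent.H32.Flat.Final

/-!
# MP_4bb143_an, Q1: flatness and graph structure of one-phase free boundaries around a small ball

`E3` is `EuclideanSpace ℝ (Fin 3)`; the coordinate `x_3` of the problem is `x 2`.  The notions
`posPhase`, `zeroPhase`, `freeBdry`, `IsClassical` are defined in `Pool.Agent.H32.Flat.MainDefs`.

The theorem is the full positive answer to Q1: there are `δ₀, ε, C > 0` such that for all
`0 < δ ≤ δ₀`, for `Ω = Ω_δ` (both readings, `δ < |x| < 1` and `δ ≤ |x| < 1`), for every classical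
one-phase solution `u` on `Ω_δ` whose positive and zero phases are contractible and which satisfies
the flatness condition, there is a `C¹` function `g : ℝ² → ℝ` with `|∇g| ≤ 1/100` such that, in the
region `Cδ < |x| < 1/C`, the free boundary is the graph `x_3 = g(x_1, x_2)`.
-/

open Set Metric

namespace Pool.Agent.Results.MP_4bb143_an.OnePhaseGraph

open Pool.Agent.H32.Flat

theorem result :
    ∃ δ₀ > (0 : ℝ), ∃ ε > (0 : ℝ), ∃ C > (0 : ℝ), ∀ (δ : ℝ), 0 < δ → δ ≤ δ₀ →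
      ∀ (Ω : Set E3) (u : E3 → ℝ),
      (Ω = {x | δ < ‖x‖ ∧ ‖x‖ < 1} ∨ Ω = {x | δ ≤ ‖x‖ ∧ ‖x‖ < 1}) →
      IsClassical Ω u →
      ContractibleSpace (posPhase Ω u) → ContractibleSpace (zeroPhase Ω u) →
      (∀ x ∈ Ω, ε < x 2 → x ∈ posPhase Ω u) → (∀ x ∈ Ω, x 2 < -ε → x ∈ zeroPhase Ω u) →
      ∃ g : EuclideanSpace ℝ (Fin 2) → ℝ, ContDiff ℝ 1 g ∧ (∀ z, ‖fderiv ℝ g z‖ ≤ 1 / 100) ∧
        freeBdry Ω u ∩ {x | C * δ < ‖x‖ ∧ ‖x‖ < 1 / C} =
          {x | (C * δ < ‖x‖ ∧ ‖x‖ < 1 / C) ∧ x 2 = g !₂[x 0, x 1]} :=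
  main

end Pool.Agent.Results.MP_4bb143_an.OnePhaseGraph
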